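import Mathlib

/-!
Definitions for MP_2f3b43_co (separator exponent versus expansion exponent).
-/

open SimpleGraph Filter Asymptotics

namespace N417.Sep

/-- A class of finite simple graphs: a property of graphs on finite vertex types. -/
abbrev GraphClass := ∀ (V : Type) [Finite V], SimpleGraph V → Prop

/-- The class is closed under taking subgraphs (`H ⊑ G` : there is an injective homomorphism
`H → G`, i.e. `H` is isomorphic to a subgraph of `G`). -/
def IsMonotone (C : GraphClass) : Prop :=
  ∀ (V W : Type) [Finite V] [Finite W] (G : SimpleGraph V) (H : SimpleGraph W),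
    C V G → H.IsContained G → C W H

/-- `S` is a balanced separator of the `n`-vertex graph `G`: every connected component of `G - S`
has at most `2n/3` vertices. -/
def IsBalancedSeparator {V : Type} (G : SimpleGraph V) (S : Set V) : Prop :=
  ∀ Q : (G.induce Sᶜ).ConnectedComponent, 3 * Q.supp.ncard ≤ 2 * Nat.card V

/-- Every `n`-vertex graph of the class has a balanced separator of order `O(n^(1-δ))`. -/
def HasSeparators (C : GraphClass) (δ : ℝ) : Prop :=
  ∃ K : ℝ, ∀ (V : Type) [Finite V] (G : SimpleGraph V), C V G →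
    ∃ S : Set V, IsBalancedSeparator G S ∧ (S.ncard : ℝ) ≤ K * (Nat.card V : ℝ) ^ (1 - δ)

/-- `H` is a depth-`r` minor of `G`: there are pairwise disjoint vertex sets `B u` of `G`
(`u` a vertex of `H`), each inducing a subgraph with a centre `z` from which every vertex of `B u`
is reached inside `B u` by a walk of length at most `r` (so the induced subgraph is connected, of
radius at most `r`), such that for every edge `uv` of `H` some edge of `G` joins `B u` and
`B v`. -/
def IsDepthMinor {V W : Type} (r : ℕ) (H : SimpleGraph W) (G : SimpleGraph V) : Prop :=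
  ∃ B : W → Set V,
    (∀ u, ∃ z : B u, ∀ x : B u, ∃ p : (G.induce (B u)).Walk z x, p.length ≤ r) ∧
    (∀ u v, u ≠ v → Disjoint (B u) (B v)) ∧
    (∀ u v, H.Adj u v → ∃ x ∈ B u, ∃ y ∈ B v, G.Adj x y)

/-- The class has expansion bounded by `f`: every depth-`r` minor `H` of every graph in the class
has average degree `2 |E(H)| / |V(H)|` at most `f r`. -/
def ExpansionBoundedBy (C : GraphClass) (f : ℕ → ℝ) : Prop :=
  ∀ (r : ℕ) (V W : Type) [Finite V] [Finite W] (G : SimpleGraph V) (H : SimpleGraph W),
    C V G → IsDepthMinor r H G → 2 * (H.edgeSet.ncard : ℝ) ≤ f r * (Nat.card W : ℝ)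

/-- The set `A` of the problem. -/
def A : Set ℝ := {c | 0 < c ∧ ∀ δ : ℝ, 0 < δ → δ ≤ 1 → ∀ C : GraphClass,
  IsMonotone C → HasSeparators C δ →
    ∃ f : ℕ → ℝ, f =O[atTop] (fun r : ℕ => (r : ℝ) ^ (c / δ)) ∧ ExpansionBoundedBy C f}

end N417.Sep
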