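import Pool.Agent.N417.Sep.Defs

open SimpleGraph Filter Asymptotics

namespace N417.Sep

/-- Separators from labellings. -/
theorem isBalancedSeparator_of_label {V L : Type} [Finite V] (G : SimpleGraph V) (S : Set V)
    (lab : V → L) (h1 : ∀ x y, x ∉ S → y ∉ S → G.Adj x y → lab x = lab y)
    (h2 : ∀ x, x ∉ S → 3 * {y | y ∉ S ∧ lab y = lab x}.ncard ≤ 2 * Nat.card V) :
    IsBalancedSeparator G S := by
  intro Q
  induction Q using SimpleGraph.ConnectedComponent.ind with
  | _ x =>
  have key : ∀ y : ↥(Sᶜ : Set V), (G.induce Sᶜ).Reachable y x → lab y = lab x := by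
    intro y hy
    obtain ⟨p⟩ := hy
    induction p with
    | nil => rfl
    | @cons a b c h p ih =>
      rw [← ih]
      exact h1 a b a.2 b.2 h
  have hle : ((G.induce Sᶜ).connectedComponentMk x).supp.ncard
      ≤ {y | y ∉ S ∧ lab y = lab x}.ncard := by
    have himg : (Subtype.val '' ((G.induce Sᶜ).connectedComponentMk x).supp)
        ⊆ {y | y ∉ S ∧ lab y = lab x} := by
      rintro _ ⟨y, hy, rfl⟩
      refine ⟨y.2, key y ?_⟩
      exact SimpleGraph.ConnectedComponent.exact hy
    rw [← Set.ncard_image_of_injective _ Subtype.val_injective]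
    exact Set.ncard_le_ncard himg (Set.toFinite _)
  have := h2 x x.2
  omega

/-- Median of a finite set of positions. -/
theorem exists_median {V : Type} [Finite V] (X : Set V) (pos : V → ℕ)
    (hX : 2 * Nat.card V < 3 * X.ncard) :
    ∃ x ∈ X, 3 * {y ∈ X | pos y < pos x}.ncard ≤ 2 * Nat.card V ∧
      3 * {y ∈ X | pos x < pos y}.ncard ≤ 2 * Nat.card V := by
  classical
  have : Fintype V := Fintype.ofFinite V
  -- smallest position p with 3 * #{pos ≤ p} ≥ n
  have hex : ∃ p, Nat.card V ≤ 3 * {y ∈ X | pos y ≤ p}.ncard := by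
    obtain ⟨M, hM⟩ := (Set.toFinite (pos '' X)).bddAbove
    refine ⟨M, ?_⟩
    have : {y ∈ X | pos y ≤ M} = X := by
      ext y
      simp only [Set.mem_ofPred_eq, and_iff_left_iff_imp]
      intro hy
      exact hM (Set.mem_image_of_mem _ hy)
    rw [this]
    omega
  have hmin := Nat.find_spec hex
  set p := Nat.find hex with hp
  have hcard : X.ncard ≤ Nat.card V := by
    rw [← Set.ncard_univ]
    exact Set.ncard_le_ncard (Set.subset_univ _) (Set.toFinite _)
  have hlt : 3 * {y ∈ X | pos y < p}.ncard < Nat.card V ∨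
      {y ∈ X | pos y < p}.ncard = 0 := by
    rcases Nat.eq_zero_or_pos p with h0 | h0
    · right
      rw [h0]
      simp
    · left
      have hm := Nat.find_min hex (m := p - 1) (by omega)
      have heq : {y ∈ X | pos y < p} = {y ∈ X | pos y ≤ p - 1} := by
        ext y
        simp only [Set.mem_ofPred_eq]
        constructor
        · rintro ⟨h1, h2⟩
          exact ⟨h1, by omega⟩
        · rintro ⟨h1, h2⟩
          exact ⟨h1, by omega⟩
      rw [heq]
      omega
  -- there is x with pos x = p
  have hx : ∃ x ∈ X, pos x = p := by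
    by_contra hno
    push Not at hno
    have heq : {y ∈ X | pos y ≤ p} = {y ∈ X | pos y < p} := by
      ext y
      simp only [Set.mem_ofPred_eq]
      constructor
      · rintro ⟨h1, h2⟩
        exact ⟨h1, lt_of_le_of_ne h2 (hno y h1)⟩
      · rintro ⟨h1, h2⟩
        exact ⟨h1, h2.le⟩
    rw [heq] at hmin
    omega
  obtain ⟨x, hxX, hxp⟩ := hx
  refine ⟨x, hxX, ?_, ?_⟩
  · rw [hxp]
    omega
  · rw [hxp]
    have hdis : Disjoint {y ∈ X | pos y ≤ p} {y ∈ X | p < pos y} := by
      rw [Set.disjoint_left]
      rintro y ⟨_, h1⟩ ⟨_, h2⟩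
      omega
    have hun : {y ∈ X | pos y ≤ p} ∪ {y ∈ X | p < pos y} = X := by
      ext y
      simp only [Set.mem_union, Set.mem_ofPred_eq]
      constructor
      · rintro (h | h) <;> exact h.1
      · intro h
        rcases le_or_gt (pos y) p with h' | h'
        · exact Or.inl ⟨h, h'⟩
        · exact Or.inr ⟨h, h'⟩
    have := Set.ncard_union_eq hdis (Set.toFinite _) (Set.toFinite _)
    rw [hun] at this
    omega

/-- vertices of the subdivided complete graph -/
abbrev BV (t s : ℕ) := Fin t × Option (Fin t × Fin s)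

/-- relation generating the subdivided complete graph -/
def bigRel (t s : ℕ) : BV t s → BV t s → Prop
  | (u, none), (u', some (_, i)) => u = u' ∧ i.val = 0
  | (u, some (w, i)), (u', some (w', j)) =>
      (u = u' ∧ w = w' ∧ i.val + 1 = j.val) ∨
      (u = w' ∧ w = u' ∧ i.val + 1 = s ∧ j.val + 1 = s)
  | _, _ => False

/-- `K_t` with every edge subdivided `2s` times (and one pendant path at each hub). -/
def Big (t s : ℕ) : SimpleGraph (BV t s) := SimpleGraph.fromRel (bigRel t s)

/-- the star of a hub -/
def star (t s : ℕ) (u : Fin t) : Set (BV t s) := {x | x.1 = u}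

theorem mem_star {t s : ℕ} (u : Fin t) (o) : ((u, o) : BV t s) ∈ star t s u := rfl

/-- `K_t` is a depth-`s` minor of `Big t s`. -/
theorem big_minor (t s : ℕ) (hs : 0 < s) : IsDepthMinor s (⊤ : SimpleGraph (Fin t)) (Big t s) := by
  refine ⟨star t s, ?_, ?_, ?_⟩
  · intro u
    refine ⟨⟨(u, none), mem_star u _⟩, ?_⟩
    have main : ∀ (w : Fin t) (i : ℕ) (hi : i < s),
        ∃ p : ((Big t s).induce (star t s u)).Walk ⟨(u, none), mem_star u _⟩
          ⟨(u, some (w, ⟨i, hi⟩)), mem_star u _⟩, p.length ≤ i + 1 := by
      intro w i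
      induction i with
      | zero =>
        intro hi
        have hadj : ((Big t s).induce (star t s u)).Adj ⟨(u, none), mem_star u _⟩
          ⟨(u, some (w, ⟨0, hi⟩)), mem_star u _⟩ := by
          simp [Big, bigRel]
        exact ⟨hadj.toWalk, by simp⟩
      | succ i ih =>
        intro hi
        obtain ⟨p, hp⟩ := ih (by omega)
        have hadj : ((Big t s).induce (star t s u)).Adj
          ⟨(u, some (w, ⟨i, by omega⟩)), mem_star u _⟩
          ⟨(u, some (w, ⟨i + 1, hi⟩)), mem_star u _⟩ := by
          simp [Big, bigRel]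
        refine ⟨p.append hadj.toWalk, ?_⟩
        simp
        omega
    rintro ⟨⟨u', o⟩, hx⟩
    have hx' : u' = u := hx
    subst hx'
    rcases o with _ | ⟨w, ⟨i, hi⟩⟩
    · exact ⟨SimpleGraph.Walk.nil, by simp⟩
    · obtain ⟨p, hp⟩ := main w i hi
      exact ⟨p, by omega⟩
  · intro u v huv
    rw [Set.disjoint_left]
    rintro x hx hx'
    exact huv (hx.symm.trans hx')
  · intro u v huv
    have huv' : u ≠ v := huv.ne
    refine ⟨(u, some (v, ⟨s - 1, by omega⟩)), rfl, (v, some (u, ⟨s - 1, by omega⟩)), rfl, ?_⟩
    simp only [Big, SimpleGraph.fromRel_adj]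
    refine ⟨?_, Or.inl ?_⟩
    · intro h
      exact huv' (congrArg Prod.fst h)
    · right
      exact ⟨rfl, rfl, by simp; omega, by simp; omega⟩

/-- position on the path -/
def pos (t s : ℕ) : BV t s → ℕ
  | (_, none) => 0
  | (u, some (w, i)) => if u ≤ w then i.val else 2 * s - 1 - i.val

/-- the path (unordered pair) a vertex lies on -/
def pth (t s : ℕ) : BV t s → Option (Sym2 (Fin t))
  | (_, none) => none
  | (u, some (w, _)) => some s(u, w)

theorem pth_pos_inj (t s : ℕ) (a b : BV t s) (h : pth t s a = pth t s b) (ha : pth t s a ≠ none)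
    (hp : pos t s a = pos t s b) : a = b := by
  obtain ⟨u, o⟩ := a
  obtain ⟨u', o'⟩ := b
  rcases o with _ | ⟨w, i⟩
  · simp [pth] at ha
  rcases o' with _ | ⟨w', j⟩
  · simp [pth] at h
  simp only [pth, Option.some.injEq, Sym2.eq_iff] at h
  simp only [pos] at hp
  have hi := i.2
  have hj := j.2
  rcases h with ⟨rfl, rfl⟩ | ⟨rfl, rfl⟩
  · split_ifs at hp with h1
    · have : i = j := Fin.ext hp
      rw [this]
    · have : i = j := Fin.ext (by omega)
      rw [this]
  · by_cases h1 : u ≤ w
    · by_cases h2 : w ≤ u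
      · have h3 : u = w := le_antisymm h1 h2
        subst h3
        simp only [le_refl, if_true] at hp
        have : i = j := Fin.ext hp
        rw [this]
      · rw [if_pos h1, if_neg h2] at hp
        omega
    · by_cases h2 : w ≤ u
      · rw [if_neg h1, if_pos h2] at hp
        omega
      · exact absurd (le_total u w) (by tauto)

/-- key properties of adjacency in `Big` -/
theorem big_adj_cases {t s : ℕ} {a b : BV t s} (h : (Big t s).Adj a b) :
    bigRel t s a b ∨ bigRel t s b a := by
  simp only [Big, SimpleGraph.fromRel_adj] at h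
  exact h.2

/-- number of vertices of `V` mapped to the star of `u` -/
noncomputable def starCount {V : Type} {t s : ℕ} (f : V → BV t s) (u : Fin t) : ℕ :=
  {y | (f y).1 = u}.ncard

theorem sum_starCount {V : Type} [Finite V] {t s : ℕ} (f : V → BV t s) :
    ∑ u, starCount f u = Nat.card V := by
  classical
  have : Fintype V := Fintype.ofFinite V
  unfold starCount
  rw [Nat.card_eq_fintype_card, ← Finset.card_univ,
    Finset.card_eq_sum_card_fiberwise (f := fun y => (f y).1) (t := Finset.univ)
      (by intro x _; simp)]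
  refine Finset.sum_congr rfl fun u _ => ?_
  rw [← Set.ncard_coe_finset]
  congr 1
  ext y
  simp

/-- heavy hubs -/
def Heavy {V : Type} {t s : ℕ} (f : V → BV t s) (u : Fin t) : Prop :=
  s < starCount f u ∨ 2 * Nat.card V < 3 * starCount f u

theorem heavy_count {V : Type} [Finite V] {t s : ℕ} (f : V → BV t s) :
    ∃ h : ℕ, h ≤ t ∧ h * s ≤ Nat.card V ∧ {u | Heavy f u}.ncard ≤ h + 1 := by
  classical
  refine ⟨{u | s < starCount f u}.ncard, ?_, ?_, ?_⟩
  · calc {u | s < starCount f u}.ncard ≤ (Set.univ : Set (Fin t)).ncard :=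
        Set.ncard_le_ncard (Set.subset_univ _) (Set.toFinite _)
      _ = t := by rw [Set.ncard_univ]; simp
  · rw [← sum_starCount f]
    calc {u | s < starCount f u}.ncard * s
        = ∑ u ∈ Finset.univ.filter (fun u => s < starCount f u), s := by
          rw [Finset.sum_const, smul_eq_mul]
          congr 1
          rw [← Set.ncard_coe_finset]
          congr 1
          ext u
          simp
      _ ≤ ∑ u ∈ Finset.univ.filter (fun u => s < starCount f u), starCount f u := by
          refine Finset.sum_le_sum fun u hu => ?_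
          simp only [Finset.mem_filter] at hu
          exact hu.2.le
      _ ≤ ∑ u, starCount f u :=
          Finset.sum_le_sum_of_subset (Finset.subset_univ _)
  · have h1 : {u | Heavy f u} ⊆ {u | s < starCount f u} ∪
        {u | 2 * Nat.card V < 3 * starCount f u} := by
      rintro u (h | h)
      · exact Or.inl h
      · exact Or.inr h
    have h2 : {u | 2 * Nat.card V < 3 * starCount f u}.ncard ≤ 1 := by
      rw [Set.ncard_le_one (Set.toFinite _)]
      intro a ha b hb
      by_contra hab
      have hs : starCount f a + starCount f b ≤ ∑ u, starCount f u := by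
        rw [← Finset.sum_pair hab]
        exact Finset.sum_le_sum_of_subset (Finset.subset_univ _)
      rw [sum_starCount] at hs
      simp only [Set.mem_ofPred_eq] at ha hb
      omega
    calc {u | Heavy f u}.ncard ≤ _ := Set.ncard_le_ncard h1 (Set.toFinite _)
      _ ≤ _ := Set.ncard_union_le _ _
      _ ≤ _ := by omega

end N417.Sep
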