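import Pool.Agent.N417.Sep.Lower

open SimpleGraph Filter Asymptotics

namespace N417.Sep

open Classical in
/-- the label of a vertex of `Big t s`; `In` is the set of surviving vertices, `c` the cut vertex -/
noncomputable def lab {t s : ℕ} (In : BV t s → Prop) (c : BV t s) :
    BV t s → Fin t ⊕ (Sym2 (Fin t) × Prop)
  | (u, none) => Sum.inl u
  | (u, some (w, i)) =>
      if In (u, none) ∧ ∀ j : Fin s, j ≤ i → In (u, some (w, j)) then Sum.inl u
      else Sum.inr (s(u, w), pth t s c = some s(u, w) ∧ pos t s (u, some (w, i)) < pos t s c)

theorem lab_rel {t s : ℕ} (In : BV t s → Prop) (c : BV t s) (hc : ¬ In c)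
    (hstar : ∀ u w, In (u, none) → (∀ j : Fin s, In (u, some (w, j))) → False)
    (a b : BV t s) (ha : In a) (hb : In b) (h : bigRel t s a b) : lab In c a = lab In c b := by
  obtain ⟨u, o⟩ := a
  obtain ⟨u', o'⟩ := b
  rcases o with _ | ⟨w, i⟩
  · rcases o' with _ | ⟨w', j⟩
    · exact absurd h (by simp [bigRel])
    · simp only [bigRel] at h
      obtain ⟨rfl, hj⟩ := h
      simp only [lab]
      rw [if_pos]
      refine ⟨ha, ?_⟩
      intro k hk
      have : k = j := Fin.ext (by have := Fin.le_def.mp hk; omega)
      rw [this]
      exact hb
  · rcases o' with _ | ⟨w', j⟩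
    · exact absurd h (by simp [bigRel])
    · simp only [bigRel] at h
      have hne : ∀ (a : BV t s), In a → a ≠ c := by
        rintro a ha rfl
        exact hc ha
      rcases h with ⟨rfl, rfl, hij⟩ | ⟨rfl, rfl, hi, hj⟩
      · have hiff : (In (u, none) ∧ ∀ k : Fin s, k ≤ i → In (u, some (w, k))) ↔
            (In (u, none) ∧ ∀ k : Fin s, k ≤ j → In (u, some (w, k))) := by
          constructor
          · rintro ⟨h1, h2⟩
            refine ⟨h1, fun k hk => ?_⟩
            by_cases hkj : k = j
            · rw [hkj]; exact hb
            · refine h2 k ?_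
              rw [Fin.le_def] at hk ⊢
              have : k.val ≠ j.val := fun h => hkj (Fin.ext h)
              omega
          · rintro ⟨h1, h2⟩
            refine ⟨h1, fun k hk => h2 k ?_⟩
            rw [Fin.le_def] at hk ⊢
            omega
        simp only [lab]
        by_cases hI : (In (u, none) ∧ ∀ k : Fin s, k ≤ i → In (u, some (w, k)))
        · rw [if_pos hI, if_pos (hiff.mp hI)]
        · rw [if_neg hI, if_neg (fun h => hI (hiff.mpr h))]
          congr 2
          apply propext
          refine and_congr_right fun hp => ?_
          -- positions differ by one, neither equals pos c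
          have h1 : pos t s (u, some (w, i)) ≠ pos t s c := by
            intro he
            exact hne _ ha (pth_pos_inj t s _ _ (by rw [hp]; rfl) (by simp [pth]) he)
          have h2 : pos t s (u, some (w, j)) ≠ pos t s c := by
            intro he
            exact hne _ hb (pth_pos_inj t s _ _ (by rw [hp]; rfl) (by simp [pth]) he)
          have hi' := i.2
          have hj' := j.2
          simp only [pos] at h1 h2 ⊢
          split_ifs at h1 h2 ⊢ <;> omega
      · have hnI : ∀ (u w : Fin t) (i : Fin s), i.val + 1 = s →
            ¬ (In (u, none) ∧ ∀ k : Fin s, k ≤ i → In (u, some (w, k))) := by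
          rintro u w i hi ⟨h1, h2⟩
          refine hstar u w h1 fun j => h2 j ?_
          rw [Fin.le_def]
          have := j.2
          omega
        simp only [lab]
        rw [if_neg (hnI _ _ _ hi), if_neg (hnI _ _ _ hj)]
        have hsw : s(w, u) = s(u, w) := Sym2.eq_swap
        rw [hsw]
        congr 2
        apply propext
        refine and_congr_right fun hp => ?_
        have h1 : pos t s (u, some (w, i)) ≠ pos t s c := by
          intro he
          exact hne _ ha (pth_pos_inj t s _ _ (by rw [hp]; rfl) (by simp [pth]) he)
        have h2 : pos t s (w, some (u, j)) ≠ pos t s c := by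
          intro he
          exact hne _ hb (pth_pos_inj t s _ _ (by rw [hp, ← hsw]; rfl) (by simp [pth]) he)
        have hi' := i.2
        have hj' := j.2
        simp only [pos] at h1 h2 ⊢
        rcases lt_trichotomy u w with hlt | heq | hlt
        · rw [if_pos hlt.le] at h1
          rw [if_neg (not_le.mpr hlt)] at h2
          rw [if_pos hlt.le, if_neg (not_le.mpr hlt)]
          omega
        · subst heq
          simp only [le_refl, if_true] at h1 h2 ⊢
          omega
        · rw [if_neg (not_le.mpr hlt)] at h1
          rw [if_pos hlt.le] at h2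
          rw [if_pos hlt.le, if_neg (not_le.mpr hlt)]
          omega

theorem exists_separator {V : Type} [Finite V] [Nonempty V] {t s : ℕ} (G : SimpleGraph V)
    (f : V → BV t s) (hinj : Function.Injective f)
    (hf : ∀ x y, G.Adj x y → (Big t s).Adj (f x) (f y)) :
    ∃ S : Set V, IsBalancedSeparator G S ∧ S.ncard ≤ {u | Heavy f u}.ncard + 1 := by
  classical
  -- the cut vertex
  have hx : ∃ x : V, ∀ p : Sym2 (Fin t),
      2 * Nat.card V < 3 * {y | pth t s (f y) = some p}.ncard →
      pth t s (f x) = some p ∧
      3 * {y | pth t s (f y) = some p ∧ pos t s (f y) < pos t s (f x)}.ncard ≤ 2 * Nat.card V ∧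
      3 * {y | pth t s (f y) = some p ∧ pos t s (f x) < pos t s (f y)}.ncard
        ≤ 2 * Nat.card V := by
    by_cases hex : ∃ p : Sym2 (Fin t), 2 * Nat.card V < 3 * {y | pth t s (f y) = some p}.ncard
    · obtain ⟨p, hp⟩ := hex
      obtain ⟨x, hx1, hx2, hx3⟩ := exists_median {y | pth t s (f y) = some p}
        (fun y => pos t s (f y)) hp
      refine ⟨x, fun q hq => ?_⟩
      have hpq : p = q := by
        by_contra hne
        have hdis : Disjoint {y | pth t s (f y) = some p} {y | pth t s (f y) = some q} := by
          rw [Set.disjoint_left]
          intro y h1 h2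
          simp only [Set.mem_ofPred_eq] at h1 h2
          rw [h1] at h2
          exact hne (Option.some.inj h2)
        have hle : ({y | pth t s (f y) = some p} ∪ {y | pth t s (f y) = some q}).ncard
            ≤ Nat.card V := by
          rw [← Set.ncard_univ]
          exact Set.ncard_le_ncard (Set.subset_univ _) (Set.toFinite _)
        rw [Set.ncard_union_eq hdis (Set.toFinite _) (Set.toFinite _)] at hle
        omega
      subst hpq
      exact ⟨hx1, hx2, hx3⟩
    · push Not at hex
      obtain ⟨x⟩ := ‹Nonempty V›
      exact ⟨x, fun p hp => absurd (hex p) (by omega)⟩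
  obtain ⟨x, hx⟩ := hx
  set S : Set V := {y | ∃ u, f y = (u, none) ∧ Heavy f u} ∪ {x} with hS
  set In : BV t s → Prop := fun b => ∃ z, z ∉ S ∧ f z = b with hIn
  have hIn_f : ∀ y, y ∉ S → In (f y) := fun y hy => ⟨y, hy, rfl⟩
  have hhub : ∀ u, In (u, none) → ¬ Heavy f u := by
    rintro u ⟨z, hz, hzu⟩ hH
    exact hz (Or.inl ⟨u, hzu, hH⟩)
  have hc : ¬ In (f x) := by
    rintro ⟨z, hz, hzx⟩
    rw [hinj hzx] at hz
    exact hz (Or.inr rfl)
  have hstar : ∀ u w, In (u, none) → (∀ j : Fin s, In (u, some (w, j))) → False := by
    intro u w h1 h2
    refine hhub u h1 (Or.inl ?_)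
    -- the star of u has at least s+1 vertices
    obtain ⟨z0, hz0, hz0'⟩ := h1
    choose z hz hz' using h2
    let g : Option (Fin s) → V := fun o => match o with
      | none => z0
      | some j => z j
    have hg : Function.Injective g := by
      rintro (_ | a) (_ | b) hab
      · rfl
      · exfalso
        have : f z0 = f (z b) := congrArg f hab
        rw [hz0', hz'] at this
        simp at this
      · exfalso
        have : f (z a) = f z0 := congrArg f hab
        rw [hz0', hz'] at this
        simp at this
      · have : f (z a) = f (z b) := congrArg f hab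
        rw [hz', hz'] at this
        simpa using this
    have hsub : Set.range g ⊆ {y | (f y).1 = u} := by
      rintro _ ⟨(_ | a), rfl⟩
      · simp [g, hz0']
      · simp [g, hz']
    have hcard : (Set.range g).ncard = s + 1 := by
      rw [← Set.image_univ, Set.ncard_image_of_injective _ hg, Set.ncard_univ]
      simp
    have := Set.ncard_le_ncard hsub (Set.toFinite _)
    unfold starCount
    omega
  refine ⟨S, ?_, ?_⟩
  · apply isBalancedSeparator_of_label G S (fun y => lab In (f x) (f y))
    · intro a b ha hb hab
      rcases big_adj_cases (hf a b hab) with h | h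
      · exact lab_rel In (f x) hc hstar _ _ (hIn_f a ha) (hIn_f b hb) h
      · exact (lab_rel In (f x) hc hstar _ _ (hIn_f b hb) (hIn_f a ha) h).symm
    · intro y hy
      rcases hl : lab In (f x) (f y) with u | ⟨p, b⟩
      · -- star label
        have hu : In (u, none) := by
          rcases hfy : f y with ⟨u', _ | ⟨w, i⟩⟩
          · rw [hfy] at hl
            simp only [lab, Sum.inl.injEq] at hl
            rw [← hl, ← hfy]
            exact hIn_f y hy
          · rw [hfy] at hl
            simp only [lab] at hl
            split_ifs at hl with h
            rw [← Sum.inl.inj hl]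
            exact h.1
        have hnh := hhub u hu
        have hsub : {z | z ∉ S ∧ lab In (f x) (f z) = Sum.inl u} ⊆ {z | (f z).1 = u} := by
          rintro z ⟨hz, hlz⟩
          rcases hfz : f z with ⟨u', _ | ⟨w, i⟩⟩
          · rw [hfz] at hlz
            simp only [lab, Sum.inl.injEq] at hlz
            simp [hfz, hlz]
          · rw [hfz] at hlz
            simp only [lab] at hlz
            split_ifs at hlz with h
            simp [hfz, Sum.inl.inj hlz]
        have h1 := Set.ncard_le_ncard hsub (Set.toFinite _)
        have h2 : ¬ (2 * Nat.card V < 3 * starCount f u) := fun h => hnh (Or.inr h)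
        unfold starCount at h2
        omega
      · have hsub : {z | z ∉ S ∧ lab In (f x) (f z) = Sum.inr (p, b)} ⊆
            {z | z ∉ S ∧ pth t s (f z) = some p ∧
              ((pth t s (f x) = some p ∧ pos t s (f z) < pos t s (f x)) = b)} := by
          rintro z ⟨hz, hlz⟩
          rcases hfz : f z with ⟨u', _ | ⟨w, i⟩⟩
          · rw [hfz] at hlz
            simp [lab] at hlz
          · rw [hfz] at hlz
            simp only [lab] at hlz
            split_ifs at hlz with h
            have hlz' := Sum.inr.inj hlz
            have hp := congrArg Prod.fst hlz'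
            have hb := congrArg Prod.snd hlz'
            simp only at hp hb
            refine ⟨hz, ?_, ?_⟩
            · rw [hfz, ← hp]; rfl
            · rw [hfz, ← hp]
              exact hb
        have h1 := Set.ncard_le_ncard hsub (Set.toFinite _)
        by_cases hheavy : 2 * Nat.card V < 3 * {y | pth t s (f y) = some p}.ncard
        · obtain ⟨hx1, hx2, hx3⟩ := hx p hheavy
          by_cases hb : b
          · have hsub2 : {z | z ∉ S ∧ pth t s (f z) = some p ∧
                ((pth t s (f x) = some p ∧ pos t s (f z) < pos t s (f x)) = b)} ⊆
                {y | pth t s (f y) = some p ∧ pos t s (f y) < pos t s (f x)} := by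
              rintro z ⟨hz, hz1, hz2⟩
              refine ⟨hz1, ?_⟩
              have : b := hb
              rw [← hz2] at this
              exact this.2
            have h2 := Set.ncard_le_ncard hsub2 (Set.toFinite _)
            omega
          · have hsub2 : {z | z ∉ S ∧ pth t s (f z) = some p ∧
                ((pth t s (f x) = some p ∧ pos t s (f z) < pos t s (f x)) = b)} ⊆
                {y | pth t s (f y) = some p ∧ pos t s (f x) < pos t s (f y)} := by
              rintro z ⟨hz, hz1, hz2⟩
              refine ⟨hz1, ?_⟩
              have hnb : ¬ b := hb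
              rw [← hz2] at hnb
              have hnlt : ¬ pos t s (f z) < pos t s (f x) := fun h => hnb ⟨hx1, h⟩
              have hne : pos t s (f z) ≠ pos t s (f x) := by
                intro he
                have := pth_pos_inj t s (f z) (f x) (by rw [hz1, hx1]) (by rw [hz1]; simp) he
                rw [hinj this] at hz
                exact hz (Or.inr rfl)
              omega
            have h2 := Set.ncard_le_ncard hsub2 (Set.toFinite _)
            omega
        · have hsub2 : {z | z ∉ S ∧ pth t s (f z) = some p ∧
                ((pth t s (f x) = some p ∧ pos t s (f z) < pos t s (f x)) = b)} ⊆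
                {y | pth t s (f y) = some p} := by
              rintro z ⟨hz, hz1, hz2⟩
              exact hz1
          have h2 := Set.ncard_le_ncard hsub2 (Set.toFinite _)
          omega
  · have h1 : {y | ∃ u, f y = (u, none) ∧ Heavy f u}.ncard ≤ {u | Heavy f u}.ncard := by
      refine Set.ncard_le_ncard_of_injOn (fun y => (f y).1) ?_ ?_ (Set.toFinite _)
      · rintro y ⟨u, hu, hH⟩
        simp only [hu]
        exact hH
      · rintro y ⟨u, hu, _⟩ z ⟨u', hu', _⟩ hyz
        simp only [hu, hu'] at hyz
        apply hinj
        rw [hu, hu', hyz]
    calc S.ncard ≤ _ := Set.ncard_union_le _ _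
      _ ≤ _ := by rw [Set.ncard_singleton]; omega

end N417.Sep
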