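import Pool.Agent.N417.Sep.Lower2

open SimpleGraph Filter Asymptotics

namespace N417.Sep

/-- the class of all graphs contained in some `Big t (s t)` -/
def Cl (s : ℕ → ℕ) : GraphClass := fun _ _ G => ∃ t, G.IsContained (Big t (s t))

theorem Cl_monotone (s : ℕ → ℕ) : IsMonotone (Cl s) := by
  rintro V W _ _ G H ⟨t, ht⟩ hHG
  exact ⟨t, hHG.trans ht⟩

theorem hub_bound (δ : ℝ) (h0 : 0 < δ) (h1 : δ < 1) (h t s n : ℕ)
    (hs : (t : ℝ) ^ (δ / (1 - δ)) ≤ s) (hht : h ≤ t) (hhs : h * s ≤ n) :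
    (h : ℝ) ≤ (n : ℝ) ^ (1 - δ) := by
  rcases Nat.eq_zero_or_pos h with rfl | hpos
  · simp only [Nat.cast_zero]
    positivity
  have hh : (0 : ℝ) < h := by exact_mod_cast hpos
  have ht : (0 : ℝ) < t := by
    have : 0 < t := by omega
    exact_mod_cast this
  have hd : (0 : ℝ) < 1 - δ := by linarith
  have e1 : (h : ℝ) = (h : ℝ) ^ (1 - δ) * (h : ℝ) ^ δ := by
    rw [← Real.rpow_add hh]
    simp
  have e2 : (h : ℝ) ^ δ ≤ (t : ℝ) ^ δ :=
    Real.rpow_le_rpow hh.le (by exact_mod_cast hht) h0.le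
  have e3 : (t : ℝ) ^ δ ≤ (s : ℝ) ^ (1 - δ) := by
    have : (t : ℝ) ^ δ = ((t : ℝ) ^ (δ / (1 - δ))) ^ (1 - δ) := by
      rw [← Real.rpow_mul ht.le]
      congr 1
      field_simp
    rw [this]
    exact Real.rpow_le_rpow (by positivity) hs hd.le
  calc (h : ℝ) = (h : ℝ) ^ (1 - δ) * (h : ℝ) ^ δ := e1
    _ ≤ (h : ℝ) ^ (1 - δ) * (s : ℝ) ^ (1 - δ) := by
        refine mul_le_mul_of_nonneg_left (e2.trans e3) (by positivity)
    _ = ((h : ℝ) * s) ^ (1 - δ) := by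
        rw [Real.mul_rpow hh.le (by positivity)]
    _ ≤ (n : ℝ) ^ (1 - δ) := by
        refine Real.rpow_le_rpow (by positivity) ?_ hd.le
        exact_mod_cast hhs

theorem Cl_hasSeparators (δ : ℝ) (h0 : 0 < δ) (h1 : δ < 1) (s : ℕ → ℕ)
    (hs : ∀ t : ℕ, (t : ℝ) ^ (δ / (1 - δ)) ≤ s t) : HasSeparators (Cl s) δ := by
  refine ⟨3, ?_⟩
  intro V _ G hG
  obtain ⟨t, ht⟩ := hG
  obtain ⟨φ⟩ := ht
  rcases isEmpty_or_nonempty V with hV | hV
  · refine ⟨∅, ?_, ?_⟩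
    · intro Q
      induction Q using SimpleGraph.ConnectedComponent.ind with
      | _ x => exact (hV.false x.1).elim
    · simp only [Set.ncard_empty, Nat.cast_zero]
      positivity
  · obtain ⟨S, hS1, hS2⟩ := exists_separator G (fun x => φ x) φ.injective
      (fun x y hxy => φ.toHom.map_adj hxy)
    refine ⟨S, hS1, ?_⟩
    obtain ⟨h, hht, hhs, hheavy⟩ := heavy_count (t := t) (s := s t) (fun x => φ x)
    have hb := hub_bound δ h0 h1 h t (s t) (Nat.card V) (hs t) hht hhs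
    have hn : (1 : ℝ) ≤ (Nat.card V : ℝ) := by
      have : 0 < Nat.card V := Nat.card_pos
      exact_mod_cast this
    have hn1 : (1 : ℝ) ≤ (Nat.card V : ℝ) ^ (1 - δ) :=
      Real.one_le_rpow hn (by linarith)
    have hS3 : S.ncard ≤ h + 2 := by omega
    have hS4 : (S.ncard : ℝ) ≤ h + 2 := by exact_mod_cast hS3
    linarith

theorem top_edges (t : ℕ) :
    2 * ((⊤ : SimpleGraph (Fin t)).edgeSet.ncard : ℝ) = (t : ℝ) * ((t : ℝ) - 1) := by
  have h1 : (⊤ : SimpleGraph (Fin t)).edgeSet.ncard = t.choose 2 := by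
    rw [← SimpleGraph.coe_edgeFinset, Set.ncard_coe_finset,
      SimpleGraph.card_edgeFinset_top_eq_card_choose_two, Fintype.card_fin]
  rw [h1, Nat.cast_choose_two]
  ring

/-- For every `δ ∈ (0,1)` an explicit monotone class with separators `O(n^(1-δ))` whose expansion
is at least `t - 1` at depth `⌈t^(δ/(1-δ))⌉` for every `t`. -/
theorem explicit (δ : ℝ) (h0 : 0 < δ) (h1 : δ < 1) :
    ∃ C : GraphClass, IsMonotone C ∧ HasSeparators C δ ∧
      ∀ f : ℕ → ℝ, ExpansionBoundedBy C f →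
        ∀ t : ℕ, 1 ≤ t → (t : ℝ) - 1 ≤ f ⌈(t : ℝ) ^ (δ / (1 - δ))⌉₊ := by
  refine ⟨Cl (fun t => ⌈(t : ℝ) ^ (δ / (1 - δ))⌉₊), Cl_monotone _,
    Cl_hasSeparators δ h0 h1 _ (fun t => Nat.le_ceil _), ?_⟩
  intro f hf t ht
  have ht0 : (0 : ℝ) < t := by exact_mod_cast ht
  have hst : 0 < ⌈(t : ℝ) ^ (δ / (1 - δ))⌉₊ := by
    rw [Nat.ceil_pos]
    positivity
  have := hf _ (BV t _) (Fin t) (Big t _) ⊤ ⟨t, SimpleGraph.IsContained.refl _⟩
    (big_minor t _ hst)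
  rw [top_edges] at this
  rw [Nat.card_eq_fintype_card, Fintype.card_fin] at this
  nlinarith

theorem one_le_of_mem_A (c : ℝ) (hc : c ∈ A) : 1 ≤ c := by
  by_contra hlt
  push Not at hlt
  obtain ⟨hc0, hc⟩ := hc
  set δ : ℝ := (1 - c) / 2 with hδ
  have hδ0 : 0 < δ := by rw [hδ]; linarith
  have hδ1 : δ < 1 := by rw [hδ]; linarith
  set a : ℝ := δ / (1 - δ) with ha
  have ha0 : 0 < a := div_pos hδ0 (by linarith)
  set s : ℕ → ℕ := fun t => ⌈(t : ℝ) ^ a⌉₊ with hs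
  have hs1 : ∀ t : ℕ, (t : ℝ) ^ (δ / (1 - δ)) ≤ s t := fun t => Nat.le_ceil _
  obtain ⟨f, hfO, hf⟩ := hc δ hδ0 hδ1.le (Cl s) (Cl_monotone s) (Cl_hasSeparators δ hδ0 hδ1 s hs1)
  -- f (s t) ≥ t - 1
  have hlow : ∀ t : ℕ, 1 ≤ t → (t : ℝ) - 1 ≤ f (s t) := by
    intro t ht
    have hst : 0 < s t := by
      rw [hs]
      simp only
      rw [Nat.ceil_pos]
      have : (0 : ℝ) < t := by exact_mod_cast ht
      positivity
    have := hf (s t) (BV t (s t)) (Fin t) (Big t (s t)) ⊤ ⟨t, SimpleGraph.IsContained.refl _⟩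
      (big_minor t (s t) hst)
    rw [top_edges] at this
    have ht' : (0 : ℝ) < t := by exact_mod_cast ht
    rw [Nat.card_eq_fintype_card, Fintype.card_fin] at this
    nlinarith
  obtain ⟨K, hK⟩ := hfO.bound
  have hstend : Tendsto s atTop atTop := by
    have h1 : Tendsto (fun t : ℕ => (t : ℝ) ^ a) atTop atTop :=
      (tendsto_rpow_atTop ha0).comp tendsto_natCast_atTop_atTop
    exact tendsto_nat_ceil_atTop.comp h1
  have hev := hstend.eventually hK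
  -- upper bound
  set b : ℝ := c / (1 - δ) with hb
  have hb1 : b < 1 := by
    rw [hb, div_lt_one (by linarith)]
    rw [hδ]
    linarith
  have hup : ∀ᶠ t : ℕ in atTop, (t : ℝ) - 1 ≤ (|K| * (2 : ℝ) ^ (c / δ)) * (t : ℝ) ^ b := by
    filter_upwards [hev, eventually_ge_atTop 1] with t ht ht1
    have ht' : (1 : ℝ) ≤ t := by exact_mod_cast ht1
    have hta : (1 : ℝ) ≤ (t : ℝ) ^ a := Real.one_le_rpow ht' ha0.le
    have hsu : (s t : ℝ) ≤ 2 * (t : ℝ) ^ a := by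
      have := (Nat.ceil_lt_add_one (a := (t : ℝ) ^ a) (by positivity)).le
      linarith
    calc (t : ℝ) - 1 ≤ f (s t) := hlow t ht1
      _ ≤ ‖f (s t)‖ := Real.le_norm_self _
      _ ≤ K * ‖(s t : ℝ) ^ (c / δ)‖ := ht
      _ ≤ |K| * ‖(s t : ℝ) ^ (c / δ)‖ :=
          mul_le_mul_of_nonneg_right (le_abs_self K) (norm_nonneg _)
      _ = |K| * (s t : ℝ) ^ (c / δ) := by
          rw [Real.norm_of_nonneg (by positivity)]
      _ ≤ |K| * (2 * (t : ℝ) ^ a) ^ (c / δ) := by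
          refine mul_le_mul_of_nonneg_left ?_ (abs_nonneg _)
          exact Real.rpow_le_rpow (by positivity) hsu (by positivity)
      _ = (|K| * (2 : ℝ) ^ (c / δ)) * (t : ℝ) ^ b := by
          rw [Real.mul_rpow (by norm_num) (by positivity), ← Real.rpow_mul (by positivity),
            mul_assoc]
          congr 3
          rw [ha, hb]
          have h1 : (1 - δ) ≠ 0 := by linarith
          field_simp
  -- contradiction: t - 1 = o(t^b) false
  have hlim : Tendsto (fun t : ℕ => (t : ℝ) ^ (1 - b)) atTop atTop :=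
    (tendsto_rpow_atTop (by linarith)).comp tendsto_natCast_atTop_atTop
  set K2 : ℝ := |K| * (2 : ℝ) ^ (c / δ) with hK2
  have hev2 := hlim.eventually_ge_atTop (2 * K2 + 1)
  obtain ⟨t, ht1, ht2, ht3⟩ := (hup.and (hev2.and (eventually_ge_atTop 2))).exists
  have ht' : (2 : ℝ) ≤ t := by exact_mod_cast ht3
  have htpos : (0 : ℝ) < t := by linarith
  have hsplit : (t : ℝ) = (t : ℝ) ^ (1 - b) * (t : ℝ) ^ b := by
    rw [← Real.rpow_add htpos]
    simp
  have htb : 0 < (t : ℝ) ^ b := by positivity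
  have h3 : (2 * K2 + 1) * (t : ℝ) ^ b ≤ t := by
    calc (2 * K2 + 1) * (t : ℝ) ^ b ≤ (t : ℝ) ^ (1 - b) * (t : ℝ) ^ b :=
        mul_le_mul_of_nonneg_right ht2 htb.le
      _ = t := hsplit.symm
  nlinarith

end N417.Sep
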